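import Mathlib

/-!
# `ℓ¹` norm of complex polynomials and the exponential
-/

open Finset Polynomial Filter Topology

namespace H87HF

/-- the `ℓ¹` norm of the coefficients -/
noncomputable def l1 (p : ℂ[X]) : ℝ := ∑ i ∈ p.support, ‖p.coeff i‖

lemma l1_nonneg (p : ℂ[X]) : 0 ≤ l1 p := Finset.sum_nonneg fun _ _ => norm_nonneg _

lemma l1_eq {p : ℂ[X]} {s : Finset ℕ} (h : p.support ⊆ s) : l1 p = ∑ i ∈ s, ‖p.coeff i‖ := by
  unfold l1
  apply Finset.sum_subset h
  intro i _ hi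
  rw [Polynomial.notMem_support_iff.mp hi, norm_zero]

@[simp] lemma l1_zero : l1 0 = 0 := by simp [l1]

lemma l1_monomial (n : ℕ) (a : ℂ) : l1 (monomial n a) = ‖a‖ := by
  rw [l1_eq (Polynomial.support_monomial_subset n a)]
  simp

lemma l1_C (a : ℂ) : l1 (C a) = ‖a‖ := l1_monomial 0 a

@[simp] lemma l1_one : l1 1 = 1 := by
  have := l1_C 1
  simpa using this

lemma l1_add_le (p q : ℂ[X]) : l1 (p + q) ≤ l1 p + l1 q := by
  have h1 : (p + q).support ⊆ p.support ∪ q.support := Polynomial.support_add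
  rw [l1_eq h1, l1_eq (Finset.subset_union_left : p.support ⊆ p.support ∪ q.support),
    l1_eq (Finset.subset_union_right : q.support ⊆ p.support ∪ q.support), ← Finset.sum_add_distrib]
  apply Finset.sum_le_sum
  intro i _
  rw [Polynomial.coeff_add]
  exact norm_add_le _ _

lemma l1_sum_le {ι : Type*} (s : Finset ι) (f : ι → ℂ[X]) : l1 (∑ i ∈ s, f i) ≤ ∑ i ∈ s, l1 (f i) := by
  classical
  induction s using Finset.induction_on with
  | empty => simp
  | insert a s ha ih =>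
    rw [Finset.sum_insert ha, Finset.sum_insert ha]
    exact (l1_add_le _ _).trans (by linarith)

lemma l1_neg (p : ℂ[X]) : l1 (-p) = l1 p := by
  unfold l1
  rw [Polynomial.support_neg]
  simp

lemma l1_monomial_mul_le (n : ℕ) (a : ℂ) (q : ℂ[X]) : l1 (monomial n a * q) ≤ ‖a‖ * l1 q := by
  conv_lhs => rw [q.as_sum_support, Finset.mul_sum]
  refine (l1_sum_le _ _).trans ?_
  unfold l1
  rw [Finset.mul_sum]
  apply Finset.sum_le_sum
  intro i _
  rw [Polynomial.monomial_mul_monomial]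
  have := l1_monomial (n + i) (a * q.coeff i)
  unfold l1 at this
  rw [this, norm_mul]

lemma l1_mul_le (p q : ℂ[X]) : l1 (p * q) ≤ l1 p * l1 q := by
  conv_lhs => rw [p.as_sum_support, Finset.sum_mul]
  refine (l1_sum_le _ _).trans ?_
  conv_rhs => rw [l1, Finset.sum_mul]
  apply Finset.sum_le_sum
  intro i _
  exact l1_monomial_mul_le _ _ _

lemma l1_C_mul_le (a : ℂ) (q : ℂ[X]) : l1 (C a * q) ≤ ‖a‖ * l1 q := l1_monomial_mul_le 0 a q

lemma l1_pow_le (p : ℂ[X]) (n : ℕ) : l1 (p ^ n) ≤ l1 p ^ n := by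
  induction n with
  | zero => simp
  | succ n ih =>
    rw [pow_succ, pow_succ]
    exact (l1_mul_le _ _).trans (mul_le_mul_of_nonneg_right ih (l1_nonneg _))

lemma l1_pow_sub_pow {p q : ℂ[X]} {r : ℝ} (hp : l1 p ≤ r) (hq : l1 q ≤ r) (n : ℕ) :
    l1 (p ^ (n + 1) - q ^ (n + 1)) ≤ ((n : ℝ) + 1) * r ^ n * l1 (p - q) := by
  have hr : 0 ≤ r := (l1_nonneg p).trans hp
  induction n with
  | zero => simp
  | succ n ih =>
    have e : p ^ (n + 1 + 1) - q ^ (n + 1 + 1) = p ^ (n + 1) * (p - q) + (p ^ (n + 1) - q ^ (n + 1)) * q := by ring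
    rw [e]
    have h1 : l1 (p ^ (n + 1) * (p - q)) ≤ r ^ (n + 1) * l1 (p - q) := by
      refine (l1_mul_le _ _).trans (mul_le_mul_of_nonneg_right ?_ (l1_nonneg _))
      exact (l1_pow_le _ _).trans (pow_le_pow_left₀ (l1_nonneg _) hp _)
    have h2 : l1 ((p ^ (n + 1) - q ^ (n + 1)) * q) ≤ (((n : ℝ) + 1) * r ^ n * l1 (p - q)) * r := by
      refine (l1_mul_le _ _).trans ?_
      exact mul_le_mul ih hq (l1_nonneg _) ((l1_nonneg _).trans ih)
    refine (l1_add_le _ _).trans ((add_le_add h1 h2).trans (le_of_eq ?_))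
    push_cast
    ring

lemma coeff_norm_le (p : ℂ[X]) (i : ℕ) : ‖p.coeff i‖ ≤ l1 p := by
  by_cases hi : i ∈ p.support
  · exact Finset.single_le_sum (f := fun i => ‖p.coeff i‖) (fun _ _ => norm_nonneg _) hi
  · rw [Polynomial.notMem_support_iff.mp hi, norm_zero]
    exact l1_nonneg p

/-- a linear functional with bounded weights -/
lemma functional_le (p : ℂ[X]) (M : ℕ) (w : ℕ → ℂ) {W : ℝ} (hW : 0 ≤ W) (hw : ∀ i < M, ‖w i‖ ≤ W) :
    ‖∑ i ∈ range M, w i * p.coeff i‖ ≤ W * l1 p := by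
  refine (norm_sum_le _ _).trans ?_
  have h1 : l1 p = ∑ i ∈ p.support ∪ range M, ‖p.coeff i‖ := l1_eq Finset.subset_union_left
  calc ∑ i ∈ range M, ‖w i * p.coeff i‖ ≤ ∑ i ∈ range M, W * ‖p.coeff i‖ := by
        apply Finset.sum_le_sum
        intro i hi
        rw [norm_mul]
        exact mul_le_mul_of_nonneg_right (hw i (Finset.mem_range.mp hi)) (norm_nonneg _)
    _ = W * ∑ i ∈ range M, ‖p.coeff i‖ := by rw [Finset.mul_sum]
    _ ≤ W * l1 p := by
        apply mul_le_mul_of_nonneg_left _ hW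
        rw [h1]
        exact Finset.sum_le_sum_of_subset_of_nonneg Finset.subset_union_right (fun _ _ _ => norm_nonneg _)

/-! ### the binomial against the exponential -/

lemma choose_div_pow (n : ℕ) (hn : 1 ≤ n) (k : ℕ) :
    |((n.choose k : ℝ)) / (n : ℝ) ^ k - 1 / (k.factorial : ℝ)| ≤ ((k : ℝ) * ((k : ℝ) - 1) / (2 * n)) / k.factorial := by
  have hn0 : (0 : ℝ) < n := by exact_mod_cast hn
  have hf : (0 : ℝ) < k.factorial := by exact_mod_cast k.factorial_pos
  -- D k = descFactorial / n^k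
  have key : ∀ k : ℕ, 0 ≤ (n.descFactorial k : ℝ) / (n : ℝ) ^ k ∧ (n.descFactorial k : ℝ) / (n : ℝ) ^ k ≤ 1 ∧
      1 - (k : ℝ) * ((k : ℝ) - 1) / (2 * n) ≤ (n.descFactorial k : ℝ) / (n : ℝ) ^ k := by
    intro k
    induction k with
    | zero => simp
    | succ k ih =>
      obtain ⟨h0, h1, h2⟩ := ih
      have e : ((n.descFactorial (k + 1) : ℕ) : ℝ) / (n : ℝ) ^ (k + 1)
          = (((n - k : ℕ) : ℝ) / n) * ((n.descFactorial k : ℝ) / (n : ℝ) ^ k) := by
        rw [Nat.descFactorial_succ, Nat.cast_mul, pow_succ]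
        field_simp
      rw [e]
      have hk0 : (0 : ℝ) ≤ ((n - k : ℕ) : ℝ) / n := by positivity
      have hk1 : ((n - k : ℕ) : ℝ) / n ≤ 1 := by
        rw [div_le_one hn0]
        exact_mod_cast Nat.sub_le n k
      have hk2 : 1 - (k : ℝ) / n ≤ ((n - k : ℕ) : ℝ) / n := by
        rw [le_div_iff₀ hn0]
        have h3 : (n : ℝ) ≤ ((n - k : ℕ) : ℝ) + k := by
          exact_mod_cast (by omega : n ≤ (n - k) + k)
        have e2 : (1 - (k : ℝ) / n) * n = n - k := by field_simp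
        rw [e2]
        linarith
      refine ⟨mul_nonneg hk0 h0, mul_le_one₀ hk1 h0 h1, ?_⟩
      set D := (n.descFactorial k : ℝ) / (n : ℝ) ^ k with hD
      set κ := ((n - k : ℕ) : ℝ) / n with hκ
      have h4 : κ + D - 1 ≤ κ * D := by nlinarith
      have e3 : ((k + 1 : ℕ) : ℝ) * (((k + 1 : ℕ) : ℝ) - 1) / (2 * n) = (k : ℝ) * ((k : ℝ) - 1) / (2 * n) + (k : ℝ) / n := by
        push_cast
        field_simp
        ring
      rw [e3]
      linarith
  obtain ⟨h0, h1, h2⟩ := key k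
  have e : ((n.choose k : ℝ)) / (n : ℝ) ^ k = ((n.descFactorial k : ℝ) / (n : ℝ) ^ k) / k.factorial := by
    rw [Nat.descFactorial_eq_factorial_mul_choose, Nat.cast_mul]
    field_simp
  rw [e, ← sub_div, abs_div, abs_of_pos hf]
  apply div_le_div_of_nonneg_right _ hf.le
  rw [abs_sub_comm, abs_of_nonneg (by linarith)]
  linarith

lemma sum_sq_le (a : ℝ) (ha : 0 ≤ a) (K : ℕ) :
    ∑ k ∈ range K, (((k : ℝ) * ((k : ℝ) - 1)) / k.factorial) * a ^ k ≤ a ^ 2 * Real.exp a := by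
  have h1 : ∀ K : ℕ, ∑ k ∈ range K, (((k : ℝ) * ((k : ℝ) - 1)) / k.factorial) * a ^ k
      ≤ a ^ 2 * ∑ k ∈ range K, a ^ k / k.factorial := by
    intro K
    rcases K with _ | K
    · simp
    rcases K with _ | K
    · simp; positivity
    rw [Finset.sum_range_succ', Finset.sum_range_succ', Finset.mul_sum]
    have e0 : ((((0 + 1 : ℕ) : ℝ) * (((0 + 1 : ℕ) : ℝ) - 1)) / ((0 + 1).factorial : ℝ)) * a ^ (0 + 1) = 0 := by
      simp
    have e1 : ((((0 : ℕ) : ℝ) * (((0 : ℕ) : ℝ) - 1)) / ((0 : ℕ).factorial : ℝ)) * a ^ 0 = 0 := by simp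
    rw [e0, e1, add_zero, add_zero]
    have h2 : ∑ k ∈ range K, ((((k + 1 + 1 : ℕ) : ℝ) * (((k + 1 + 1 : ℕ) : ℝ) - 1)) / ((k + 1 + 1).factorial : ℝ)) * a ^ (k + 1 + 1)
        = ∑ k ∈ range K, a ^ 2 * (a ^ k / k.factorial) := by
      apply Finset.sum_congr rfl
      intro k _
      rw [Nat.factorial_succ, Nat.factorial_succ]
      have : (0 : ℝ) < k.factorial := by exact_mod_cast k.factorial_pos
      push_cast
      field_simp
      ring
    rw [h2]
    apply Finset.sum_le_sum_of_subset_of_nonneg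
    · exact Finset.range_subset_range.mpr (by omega)
    · intro i _ _
      positivity
  refine (h1 K).trans (mul_le_mul_of_nonneg_left ?_ (by positivity))
  exact Real.sum_le_exp_of_nonneg ha K

/-- `(1 + A/n)^n` against the truncated exponential -/
theorem l1_binom_sub_exp (A : ℂ[X]) {n K : ℕ} (hn : 1 ≤ n) (hK : n < K) :
    l1 ((1 + C ((n : ℂ)⁻¹) * A) ^ n - ∑ k ∈ range K, C ((k.factorial : ℂ)⁻¹) * A ^ k)
      ≤ l1 A ^ 2 * Real.exp (l1 A) / (2 * n) := by
  have hn0 : (0 : ℝ) < n := by exact_mod_cast hn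
  have e1 : (1 + C ((n : ℂ)⁻¹) * A) ^ n = ∑ k ∈ range K, C ((n.choose k : ℂ) / (n : ℂ) ^ k) * A ^ k := by
    rw [add_comm, add_pow]
    have h1 : ∑ k ∈ range (n + 1), (C ((n : ℂ)⁻¹) * A) ^ k * 1 ^ (n - k) * (n.choose k : ℂ[X])
        = ∑ k ∈ range (n + 1), C ((n.choose k : ℂ) / (n : ℂ) ^ k) * A ^ k := by
      apply Finset.sum_congr rfl
      intro k _
      rw [one_pow, mul_one, mul_pow, ← C_pow, inv_pow, ← C_eq_natCast, div_eq_mul_inv, C_mul]
      ring
    rw [h1]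
    apply Finset.sum_subset (Finset.range_subset_range.mpr (by omega))
    intro k _ hk
    rw [Finset.mem_range, not_lt] at hk
    rw [Nat.choose_eq_zero_of_lt (by omega)]
    simp
  rw [e1, ← Finset.sum_sub_distrib]
  refine (l1_sum_le _ _).trans ?_
  have h2 : ∀ k ∈ range K, l1 (C ((n.choose k : ℂ) / (n : ℂ) ^ k) * A ^ k - C ((k.factorial : ℂ)⁻¹) * A ^ k)
      ≤ (((k : ℝ) * ((k : ℝ) - 1)) / k.factorial) * l1 A ^ k * (1 / (2 * n)) := by
    intro k _
    rw [← sub_mul, ← C_sub]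
    refine (l1_C_mul_le _ _).trans ?_
    have h3 : ‖((n.choose k : ℂ) / (n : ℂ) ^ k - (k.factorial : ℂ)⁻¹)‖ ≤ ((k : ℝ) * ((k : ℝ) - 1) / (2 * n)) / k.factorial := by
      have := choose_div_pow n hn k
      have e : ((n.choose k : ℂ) / (n : ℂ) ^ k - (k.factorial : ℂ)⁻¹)
          = ((((n.choose k : ℝ)) / (n : ℝ) ^ k - 1 / (k.factorial : ℝ) : ℝ) : ℂ) := by
        push_cast
        ring
      rw [e, Complex.norm_real, Real.norm_eq_abs]
      exact this
    calc _ ≤ (((k : ℝ) * ((k : ℝ) - 1) / (2 * n)) / k.factorial) * l1 A ^ k := by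
          apply mul_le_mul h3 (l1_pow_le _ _) (l1_nonneg _) ((norm_nonneg _).trans h3)
      _ = _ := by ring
  refine (Finset.sum_le_sum h2).trans ?_
  rw [← Finset.sum_mul]
  have h4 := sum_sq_le (l1 A) (l1_nonneg A) K
  calc _ ≤ (l1 A ^ 2 * Real.exp (l1 A)) * (1 / (2 * n)) := mul_le_mul_of_nonneg_right h4 (by positivity)
    _ = _ := by ring

end H87HF
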