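import Mathlib
import Pool.Agent.H87.HF.L1

/-!
# Coefficients of the exponential of a polynomial
-/

open Finset Polynomial Filter Topology

namespace H87HF

/-- truncated exponential -/
noncomputable def EK (A : ℂ[X]) (K : ℕ) : ℂ[X] := ∑ k ∈ range K, C ((k.factorial : ℂ)⁻¹) * A ^ k

lemma deriv_EK (A : ℂ[X]) (K : ℕ) : derivative (EK A (K + 1)) = derivative A * EK A K := by
  unfold EK
  rw [Finset.sum_range_succ', Finset.mul_sum]
  simp only [pow_zero, mul_one, Polynomial.derivative_add, Polynomial.derivative_C, add_zero, Polynomial.derivative_sum]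
  apply Finset.sum_congr rfl
  intro k _
  rw [Polynomial.derivative_C_mul, Polynomial.derivative_pow, Nat.add_sub_cancel]
  have h : (C (((k + 1).factorial : ℂ)⁻¹) : ℂ[X]) * C (((k + 1 : ℕ) : ℂ)) = C ((k.factorial : ℂ)⁻¹) := by
    rw [← C_mul]
    congr 1
    rw [Nat.factorial_succ]
    have h1 : ((k : ℂ) + 1) ≠ 0 := by exact_mod_cast Nat.succ_ne_zero k
    have h2 : (k.factorial : ℂ) ≠ 0 := by exact_mod_cast k.factorial_ne_zero
    push_cast
    field_simp
  rw [← h]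
  ring

/-- **Newton recursion**: if `q 0 = exp (a 0)` and `(i+1) q (i+1) = ∑ (j+1) a (j+1) q (i-j)` then the coefficients of the truncated exponentials
tend to `q`. -/
theorem tendsto_coeff_EK (A : ℂ[X]) (q : ℕ → ℂ) (h0 : q 0 = Complex.exp (A.coeff 0)) (M : ℕ)
    (hq : ∀ i, i + 1 < M → ((i : ℂ) + 1) * q (i + 1) = ∑ j ∈ range (i + 1), ((j : ℂ) + 1) * A.coeff (j + 1) * q (i - j)) :
    ∀ i < M, Tendsto (fun K => (EK A K).coeff i) atTop (𝓝 (q i)) := by
  intro i
  induction i using Nat.strong_induction_on with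
  | _ i ih =>
    intro hi
    rcases i with _ | i
    · have e : (fun K => (EK A K).coeff 0) = fun K => ∑ k ∈ range K, (A.coeff 0) ^ k / k.factorial := by
        ext K
        unfold EK
        rw [Polynomial.finsetSum_coeff]
        apply Finset.sum_congr rfl
        intro k _
        rw [Polynomial.coeff_C_mul, Polynomial.coeff_zero_eq_eval_zero, Polynomial.eval_pow, ← Polynomial.coeff_zero_eq_eval_zero]
        ring
      rw [e, h0, Complex.exp_eq_exp_ℂ]
      exact (NormedSpace.expSeries_div_hasSum_exp (A.coeff 0)).tendsto_sum_nat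
    · have key : ∀ K, (EK A (K + 1)).coeff (i + 1) = (∑ j ∈ range (i + 1), ((j : ℂ) + 1) * A.coeff (j + 1) * (EK A K).coeff (i - j)) / ((i : ℂ) + 1) := by
        intro K
        have h1 : (derivative (EK A (K + 1))).coeff i = (derivative A * EK A K).coeff i := by rw [deriv_EK]
        rw [Polynomial.coeff_derivative, Polynomial.coeff_mul, Finset.Nat.sum_antidiagonal_eq_sum_range_succ_mk] at h1
        have h2 : ((i : ℂ) + 1) ≠ 0 := by exact_mod_cast Nat.succ_ne_zero i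
        rw [eq_div_iff h2, h1]
        apply Finset.sum_congr rfl
        intro j _
        rw [Polynomial.coeff_derivative]
        ring
      have h2 : ((i : ℂ) + 1) ≠ 0 := by exact_mod_cast Nat.succ_ne_zero i
      have h3 : q (i + 1) = (∑ j ∈ range (i + 1), ((j : ℂ) + 1) * A.coeff (j + 1) * q (i - j)) / ((i : ℂ) + 1) := by
        rw [eq_div_iff h2, ← hq i hi]; ring
      rw [h3, ← tendsto_add_atTop_iff_nat 1]
      refine (tendsto_congr key).mpr ?_
      apply Tendsto.div_const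
      apply tendsto_finsetSum
      intro j hj
      apply Tendsto.const_mul
      rw [Finset.mem_range] at hj
      exact ih (i - j) (by omega) (by omega)

/-! ### the quotient `(1 - w' x)/(1 - w x)` -/

/-- coefficients of `e^a (1 - w' x)/(1 - w x)` -/
noncomputable def qq (E w w' : ℂ) (i : ℕ) : ℂ := if i = 0 then E else E * (w ^ (i - 1) * (w - w'))

lemma qq_rec (E w w' : ℂ) (i : ℕ) :
    ((i : ℂ) + 1) * qq E w w' (i + 1) = ∑ j ∈ range (i + 1), (w ^ (j + 1) - w' ^ (j + 1)) * qq E w w' (i - j) := by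
  rw [Finset.sum_range_succ]
  have e1 : ∑ j ∈ range i, (w ^ (j + 1) - w' ^ (j + 1)) * qq E w w' (i - j)
      = ∑ j ∈ range i, E * ((w - w') * w ^ i) - ∑ j ∈ range i, E * ((w - w') * w' * (w' ^ j * w ^ (i - 1 - j))) := by
    rw [← Finset.sum_sub_distrib]
    apply Finset.sum_congr rfl
    intro j hj
    rw [Finset.mem_range] at hj
    unfold qq
    rw [if_neg (by omega)]
    have h1 : w ^ i = w ^ (j + 1) * w ^ (i - 1 - j) := by rw [← pow_add]; congr 1; omega
    have h2 : i - j - 1 = i - 1 - j := by omega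
    rw [h2, h1]
    ring
  rw [e1, Finset.sum_const, Finset.card_range, nsmul_eq_mul, ← Finset.mul_sum, ← Finset.mul_sum]
  have h3 : (w' - w) * ∑ j ∈ range i, w' ^ j * w ^ (i - 1 - j) = w' ^ i - w ^ i := by
    rw [mul_comm]; exact (Commute.all w' w).geom_sum₂_mul i
  unfold qq
  rw [if_neg (by omega), Nat.add_sub_cancel, Nat.sub_self, if_pos rfl]
  linear_combination (-(E * w')) * h3

/-- Abel summation -/
lemma abel_geom (u : ℂ) (M : ℕ) :
    ∑ i ∈ range (M + 1), (((M + 1 : ℕ) : ℂ) - i) * (if i = 0 then 1 else u ^ i - u ^ (i - 1)) = ∑ i ∈ range (M + 1), u ^ i := by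
  induction M with
  | zero => simp
  | succ M ih =>
    rw [Finset.sum_range_succ _ (M + 1), Finset.sum_range_succ _ (M + 1), ← ih]
    have e1 : ∑ i ∈ range (M + 1), (((M + 1 + 1 : ℕ) : ℂ) - i) * (if i = 0 then 1 else u ^ i - u ^ (i - 1))
        = ∑ i ∈ range (M + 1), (((M + 1 : ℕ) : ℂ) - i) * (if i = 0 then 1 else u ^ i - u ^ (i - 1))
          + ∑ i ∈ range (M + 1), (if i = 0 then 1 else u ^ i - u ^ (i - 1)) := by
      rw [← Finset.sum_add_distrib]
      apply Finset.sum_congr rfl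
      intro i _
      push_cast
      ring
    have e2 : ∀ M : ℕ, ∑ i ∈ range (M + 1), (if i = 0 then (1 : ℂ) else u ^ i - u ^ (i - 1)) = u ^ M := by
      intro M
      induction M with
      | zero => simp
      | succ M ih2 =>
        rw [Finset.sum_range_succ, ih2, if_neg (by omega), Nat.add_sub_cancel]
        ring
    rw [e1, e2, if_neg (by omega), Nat.add_sub_cancel]
    push_cast
    ring

/-- the functional on the quotient -/
lemma functional_qq (E w w' z : ℂ) (hz : z * w' = 1) (M : ℕ) :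
    ∑ i ∈ range (M + 1), ((((M + 1 : ℕ) : ℂ) - i) * z ^ i) * qq E w w' i = E * ∑ i ∈ range (M + 1), (z * w) ^ i := by
  rw [← abel_geom (z * w) M, Finset.mul_sum]
  apply Finset.sum_congr rfl
  intro i _
  unfold qq
  split_ifs with hi
  · subst hi; ring
  · obtain ⟨k, rfl⟩ : ∃ k, i = k + 1 := ⟨i - 1, by omega⟩
    rw [Nat.add_sub_cancel, mul_pow, mul_pow]
    have : z ^ (k + 1) * w' = z ^ k := by rw [pow_succ, mul_assoc, hz, mul_one]
    linear_combination (-(((M + 1 : ℕ) : ℂ) - ((k + 1 : ℕ) : ℂ)) * E * w ^ k) * this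

/-- **Main comparison.** -/
theorem functional_main {A A0 : ℂ[X]} {B : ℝ} (hA : l1 A ≤ B) (hA0 : l1 A0 ≤ B) {n : ℕ} (hn : 1 ≤ n) {M : ℕ} {E w w' z : ℂ}
    (hz : z * w' = 1) (hz1 : ‖z‖ = 1) (hE : E = Complex.exp (A0.coeff 0))
    (ha : ∀ j, j + 1 < M + 1 → ((j : ℂ) + 1) * A0.coeff (j + 1) = w ^ (j + 1) - w' ^ (j + 1)) :
    ‖∑ i ∈ range (M + 1), ((((M + 1 : ℕ) : ℂ) - i) * z ^ i) * ((1 + C ((n : ℂ)⁻¹) * A) ^ n).coeff i
      - E * ∑ i ∈ range (M + 1), (z * w) ^ i‖ ≤ ((M : ℝ) + 1) * (Real.exp B * l1 (A - A0) + B ^ 2 * Real.exp B / (2 * n)) := by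
  have hB : 0 ≤ B := (l1_nonneg A).trans hA
  have hn0 : (0 : ℝ) < n := by exact_mod_cast hn
  have hw : ∀ i < M + 1, ‖(((M + 1 : ℕ) : ℂ) - i) * z ^ i‖ ≤ (M : ℝ) + 1 := by
    intro i hi
    rw [norm_mul, norm_pow, hz1, one_pow, mul_one]
    have e : (((M + 1 : ℕ) : ℂ) - i) = (((M + 1 - i : ℕ) : ℝ) : ℂ) := by
      rw [Nat.cast_sub (by omega)]
      push_cast; ring
    rw [e, Complex.norm_real, Real.norm_eq_abs, abs_of_nonneg (by positivity)]
    exact_mod_cast Nat.sub_le (M + 1) i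
  -- first comparison
  have h1 : l1 ((1 + C ((n : ℂ)⁻¹) * A) ^ n - (1 + C ((n : ℂ)⁻¹) * A0) ^ n) ≤ Real.exp B * l1 (A - A0) := by
    obtain ⟨m, rfl⟩ : ∃ m, n = m + 1 := ⟨n - 1, by omega⟩
    have hr : ∀ A : ℂ[X], l1 A ≤ B → l1 (1 + C (((m + 1 : ℕ) : ℂ)⁻¹) * A) ≤ 1 + B / ((m : ℝ) + 1) := by
      intro A hA
      refine (l1_add_le _ _).trans ?_
      rw [l1_one]
      have := l1_C_mul_le (((m + 1 : ℕ) : ℂ)⁻¹) A
      rw [norm_inv, Complex.norm_natCast] at this
      have h2 : (((m + 1 : ℕ) : ℝ))⁻¹ * l1 A ≤ B / ((m : ℝ) + 1) := by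
        rw [div_eq_inv_mul]
        push_cast
        exact mul_le_mul_of_nonneg_left hA (by positivity)
      linarith
    refine (l1_pow_sub_pow (hr A hA) (hr A0 hA0) m).trans ?_
    have e : (1 + C (((m + 1 : ℕ) : ℂ)⁻¹) * A) - (1 + C (((m + 1 : ℕ) : ℂ)⁻¹) * A0) = C (((m + 1 : ℕ) : ℂ)⁻¹) * (A - A0) := by ring
    rw [e]
    have h3 := l1_C_mul_le (((m + 1 : ℕ) : ℂ)⁻¹) (A - A0)
    rw [norm_inv, Complex.norm_natCast] at h3
    have h3' : l1 (C (((m + 1 : ℕ) : ℂ)⁻¹) * (A - A0)) ≤ ((m : ℝ) + 1)⁻¹ * l1 (A - A0) := by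
      refine h3.trans (le_of_eq ?_)
      rw [Nat.cast_add, Nat.cast_one]
    have hm : (0 : ℝ) < (m : ℝ) + 1 := by positivity
    have h4 : (1 + B / ((m : ℝ) + 1)) ^ m ≤ Real.exp B := by
      have h5 : 1 + B / ((m : ℝ) + 1) ≤ Real.exp (B / ((m : ℝ) + 1)) := by
        have := Real.add_one_le_exp (B / ((m : ℝ) + 1)); linarith
      calc (1 + B / ((m : ℝ) + 1)) ^ m ≤ (Real.exp (B / ((m : ℝ) + 1))) ^ m := pow_le_pow_left₀ (by positivity) h5 _
        _ = Real.exp (m * (B / ((m : ℝ) + 1))) := by rw [← Real.exp_nat_mul]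
        _ ≤ Real.exp B := by
            apply Real.exp_le_exp.mpr
            rw [← mul_div_assoc, div_le_iff₀ hm]
            nlinarith
    calc ((m : ℝ) + 1) * (1 + B / ((m : ℝ) + 1)) ^ m * l1 (C (((m + 1 : ℕ) : ℂ)⁻¹) * (A - A0))
        ≤ ((m : ℝ) + 1) * Real.exp B * (((m : ℝ) + 1)⁻¹ * l1 (A - A0)) := by
          apply mul_le_mul _ h3' (l1_nonneg _) (by positivity)
          exact mul_le_mul_of_nonneg_left h4 hm.le
      _ = Real.exp B * l1 (A - A0) := by field_simp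
  -- second comparison
  have h2 : ∀ K, n < K → l1 ((1 + C ((n : ℂ)⁻¹) * A0) ^ n - EK A0 K) ≤ B ^ 2 * Real.exp B / (2 * n) := by
    intro K hK
    refine (l1_binom_sub_exp A0 hn hK).trans ?_
    apply div_le_div_of_nonneg_right _ (by positivity)
    apply mul_le_mul (pow_le_pow_left₀ (l1_nonneg _) hA0 _) (Real.exp_le_exp.mpr hA0) (Real.exp_pos _).le (by positivity)
  -- bound for every K
  have h3 : ∀ K, n < K → ‖∑ i ∈ range (M + 1), ((((M + 1 : ℕ) : ℂ) - i) * z ^ i) * ((1 + C ((n : ℂ)⁻¹) * A) ^ n).coeff i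
      - ∑ i ∈ range (M + 1), ((((M + 1 : ℕ) : ℂ) - i) * z ^ i) * (EK A0 K).coeff i‖
      ≤ ((M : ℝ) + 1) * (Real.exp B * l1 (A - A0) + B ^ 2 * Real.exp B / (2 * n)) := by
    intro K hK
    rw [← Finset.sum_sub_distrib]
    have e : ∀ i ∈ range (M + 1), ((((M + 1 : ℕ) : ℂ) - i) * z ^ i) * ((1 + C ((n : ℂ)⁻¹) * A) ^ n).coeff i
        - ((((M + 1 : ℕ) : ℂ) - i) * z ^ i) * (EK A0 K).coeff i
        = ((((M + 1 : ℕ) : ℂ) - i) * z ^ i) * ((1 + C ((n : ℂ)⁻¹) * A) ^ n - EK A0 K).coeff i := by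
      intro i _
      rw [Polynomial.coeff_sub]; ring
    rw [Finset.sum_congr rfl e]
    refine (functional_le _ _ _ (by positivity) hw).trans ?_
    apply mul_le_mul_of_nonneg_left _ (by positivity)
    have e2 : (1 + C ((n : ℂ)⁻¹) * A) ^ n - EK A0 K = ((1 + C ((n : ℂ)⁻¹) * A) ^ n - (1 + C ((n : ℂ)⁻¹) * A0) ^ n)
        + ((1 + C ((n : ℂ)⁻¹) * A0) ^ n - EK A0 K) := by ring
    rw [e2]
    exact (l1_add_le _ _).trans (add_le_add h1 (h2 K hK))
  -- the limit
  have h4 : Tendsto (fun K => ∑ i ∈ range (M + 1), ((((M + 1 : ℕ) : ℂ) - i) * z ^ i) * (EK A0 K).coeff i) atTop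
      (𝓝 (∑ i ∈ range (M + 1), ((((M + 1 : ℕ) : ℂ) - i) * z ^ i) * qq E w w' i)) := by
    apply tendsto_finsetSum
    intro i hi
    apply Tendsto.const_mul
    apply tendsto_coeff_EK A0 (qq E w w') (by simp [qq, hE]) (M + 1) _ i (Finset.mem_range.mp hi)
    intro i hi
    rw [qq_rec]
    apply Finset.sum_congr rfl
    intro j hj
    rw [Finset.mem_range] at hj
    rw [ha j (by omega)]
  rw [functional_qq E w w' z hz M] at h4
  have h5 := (tendsto_const_nhds (x := ∑ i ∈ range (M + 1), ((((M + 1 : ℕ) : ℂ) - i) * z ^ i) * ((1 + C ((n : ℂ)⁻¹) * A) ^ n).coeff i)).sub h4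
  exact le_of_tendsto h5.norm (eventually_atTop.mpr ⟨n + 1, fun K hK => h3 K (by omega)⟩)

end H87HF
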