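import Mathlib
import Pool.Agent.H87.HF.L2

/-!
# The sign of the limit functional (polynomial form)
-/

open Finset Polynomial Filter Topology
open scoped Real

namespace H87HF

/-- `2 sin β ∑_{i<M} cos (a + 2βi) = sin (a + (2M-1)β) - sin (a - β)` -/
lemma sum_cos (a β : ℝ) (M : ℕ) :
    2 * Real.sin β * ∑ i ∈ range M, Real.cos (a + 2 * β * i) = Real.sin (a + 2 * M * β - β) - Real.sin (a - β) := by
  induction M with
  | zero => simp
  | succ M ih =>
    rw [Finset.sum_range_succ, mul_add, ih]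
    have h : 2 * Real.sin β * Real.cos (a + 2 * β * M) = Real.sin (a + 2 * β * M + β) - Real.sin (a + 2 * β * M - β) := by
      rw [Real.sin_add, Real.sin_sub]; ring
    rw [h]
    have e1 : a + 2 * ((M + 1 : ℕ) : ℝ) * β - β = a + 2 * β * M + β := by push_cast; ring
    have e2 : a + 2 * (M : ℝ) * β - β = a + 2 * β * M - β := by ring
    rw [e1, e2]
    ring

/-- the main term -/
lemma main_re {a : ℝ} (ha1 : a < π / 2) {M : ℕ} (hM : 0 < M) (hMa : π / (2 * M) ≤ a / 2) :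
    (Complex.exp ((a : ℂ) * Complex.I) * ∑ i ∈ range M,
      (Complex.exp (((π / (2 * M) : ℝ) : ℂ) * Complex.I) * Complex.exp (((π / (2 * M) : ℝ) : ℂ) * Complex.I)) ^ i).re
      ≤ -((2 / π) * Real.sin (a / 2)) * M := by
  have hM0 : (0 : ℝ) < M := by exact_mod_cast hM
  set β : ℝ := π / (2 * M) with hβ
  have hβ0 : 0 < β := by positivity
  have e1 : (Complex.exp ((a : ℂ) * Complex.I) * ∑ i ∈ range M,
      (Complex.exp ((β : ℂ) * Complex.I) * Complex.exp ((β : ℂ) * Complex.I)) ^ i).re = ∑ i ∈ range M, Real.cos (a + 2 * β * i) := by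
    rw [Finset.mul_sum, Complex.re_sum]
    apply Finset.sum_congr rfl
    intro i _
    rw [← Complex.exp_add, ← Complex.exp_nat_mul, ← Complex.exp_add]
    have e : (a : ℂ) * Complex.I + (i : ℂ) * ((β : ℂ) * Complex.I + (β : ℂ) * Complex.I) = ((a + 2 * β * i : ℝ) : ℂ) * Complex.I := by
      push_cast; ring
    rw [e, Complex.exp_ofReal_mul_I_re]
  rw [e1]
  have h1 := sum_cos a β M
  have e2 : a + 2 * (M : ℝ) * β - β = π - (β - a) := by rw [hβ]; field_simp; ring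
  rw [e2, Real.sin_pi_sub] at h1
  have e3 : Real.sin (β - a) = -Real.sin (a - β) := by rw [← Real.sin_neg]; congr 1; ring
  rw [e3] at h1
  have hπ := Real.pi_pos
  have hs : 0 < Real.sin β := Real.sin_pos_of_pos_of_lt_pi hβ0 (by linarith)
  have hs1 : Real.sin β ≤ β := (Real.sin_lt hβ0).le
  have hs2 : Real.sin (a / 2) ≤ Real.sin (a - β) := by
    apply Real.sin_le_sin_of_le_of_le_pi_div_two <;> linarith
  have hs3 : 0 < Real.sin (a / 2) := Real.sin_pos_of_pos_of_lt_pi (by linarith) (by linarith)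
  set S := ∑ i ∈ range M, Real.cos (a + 2 * β * i) with hS
  have h2 : Real.sin β * S = -Real.sin (a - β) := by linarith
  have h3 : S ≤ -Real.sin (a / 2) / β := by
    have hSneg : S < 0 := by
      by_contra hcon
      push Not at hcon
      have : 0 ≤ Real.sin β * S := mul_nonneg hs.le hcon
      linarith
    rw [le_div_iff₀ hβ0]
    have : S * β ≤ S * Real.sin β := mul_le_mul_of_nonpos_left hs1 hSneg.le
    linarith
  have e4 : -Real.sin (a / 2) / β = -((2 / π) * Real.sin (a / 2)) * M := by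
    rw [hβ]; field_simp
  rw [← e4]
  exact h3

/-- the exponent -/
noncomputable def AA (a : ℝ) (M : ℕ) (κ : ℕ → ℝ) : ℂ[X] :=
  C ((a : ℂ) * Complex.I) + ∑ j ∈ Ico 1 M, monomial j (2 * (π : ℂ) * Complex.I * (κ j : ℂ))

lemma coeff_AA_zero (a : ℝ) (M : ℕ) (κ : ℕ → ℝ) : (AA a M κ).coeff 0 = (a : ℂ) * Complex.I := by
  unfold AA
  rw [Polynomial.coeff_add, Polynomial.coeff_C_zero, Polynomial.finsetSum_coeff, Finset.sum_eq_zero, add_zero]
  intro j hj
  rw [Polynomial.coeff_monomial, if_neg]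
  have := (Finset.mem_Ico.mp hj).1
  omega

lemma coeff_AA {a : ℝ} {M : ℕ} {κ : ℕ → ℝ} {j : ℕ} (h1 : 1 ≤ j) (h2 : j < M) :
    (AA a M κ).coeff j = 2 * (π : ℂ) * Complex.I * (κ j : ℂ) := by
  unfold AA
  rw [Polynomial.coeff_add, Polynomial.coeff_C, if_neg (by omega), Polynomial.finsetSum_coeff, zero_add,
    Finset.sum_eq_single j]
  · rw [Polynomial.coeff_monomial, if_pos rfl]
  · intro i _ hi
    rw [Polynomial.coeff_monomial, if_neg hi]
  · intro h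
    exact absurd (Finset.mem_Ico.mpr ⟨h1, h2⟩) h

lemma l1_AA_le (a : ℝ) (M : ℕ) (κ : ℕ → ℝ) : l1 (AA a M κ) ≤ |a| + 2 * π * ∑ j ∈ Ico 1 M, |κ j| := by
  unfold AA
  refine (l1_add_le _ _).trans ?_
  rw [l1_C, norm_mul, Complex.norm_real, Complex.norm_I, mul_one, Real.norm_eq_abs]
  refine add_le_add le_rfl ((l1_sum_le _ _).trans ?_)
  rw [Finset.mul_sum]
  apply Finset.sum_le_sum
  intro j _
  rw [l1_monomial]
  simp [abs_of_pos Real.pi_pos]

lemma l1_AA_sub_le (a : ℝ) (M : ℕ) (κ κ' : ℕ → ℝ) : l1 (AA a M κ - AA a M κ') ≤ 2 * π * ∑ j ∈ Ico 1 M, |κ j - κ' j| := by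
  have e : AA a M κ - AA a M κ' = ∑ j ∈ Ico 1 M, monomial j (2 * (π : ℂ) * Complex.I * ((κ j - κ' j : ℝ) : ℂ)) := by
    unfold AA
    rw [add_sub_add_left_eq_sub, ← Finset.sum_sub_distrib]
    apply Finset.sum_congr rfl
    intro j _
    rw [← Polynomial.monomial_sub]
    congr 1
    push_cast
    ring
  rw [e]
  refine (l1_sum_le _ _).trans ?_
  rw [Finset.mul_sum]
  apply Finset.sum_le_sum
  intro j _
  rw [l1_monomial]
  simp only [norm_mul, Complex.norm_ofNat, Complex.norm_real, Complex.norm_I, Real.norm_eq_abs, abs_of_pos Real.pi_pos, mul_one]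
  exact le_rfl

/-- the model value of `κ_j` -/
noncomputable def k0 (M : ℕ) (j : ℕ) : ℝ := Real.sin (π / (2 * M) * j) / (π * j)

lemma k0_le (M : ℕ) {j : ℕ} (hj : 1 ≤ j) : |k0 M j| ≤ 1 / (2 * M) := by
  have hj0 : (0 : ℝ) < j := by exact_mod_cast hj
  unfold k0
  rw [abs_div, abs_of_pos (show (0 : ℝ) < π * j by positivity), div_le_iff₀ (by positivity)]
  have h1 : |Real.sin (π / (2 * M) * j)| ≤ |π / (2 * M) * j| := Real.abs_sin_le_abs
  rw [abs_of_nonneg (show (0 : ℝ) ≤ π / (2 * M) * j by positivity)] at h1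
  refine h1.trans (le_of_eq ?_)
  ring

lemma sum_k0_le (M : ℕ) : ∑ j ∈ Ico 1 M, |k0 M j| ≤ 1 / 2 := by
  rcases Nat.eq_zero_or_pos M with h | h
  · subst h; simp
  have hM0 : (0 : ℝ) < M := by exact_mod_cast h
  calc ∑ j ∈ Ico 1 M, |k0 M j| ≤ ∑ j ∈ Ico 1 M, 1 / (2 * (M : ℝ)) := by
        apply Finset.sum_le_sum
        intro j hj
        exact k0_le M (Finset.mem_Ico.mp hj).1
    _ = ((M - 1 : ℕ) : ℝ) * (1 / (2 * M)) := by rw [Finset.sum_const, Nat.card_Ico, nsmul_eq_mul]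
    _ ≤ M * (1 / (2 * M)) := by
        apply mul_le_mul_of_nonneg_right _ (by positivity)
        exact_mod_cast Nat.sub_le M 1
    _ = 1 / 2 := by field_simp

/-- **The functional is negative** (polynomial form). -/
theorem functional_neg {a : ℝ} (ha0 : 0 < a) (ha1 : a < π / 2) (C0 : ℝ) (hC0 : 0 < C0) :
    ∃ n : ℕ, Even n ∧ 0 < n ∧ ∃ ε : ℝ, 0 < ε ∧ ∃ M0 : ℕ, ∀ M ≥ M0, ∀ κ : ℕ → ℝ,
      ∑ j ∈ Ico 1 M, |κ j - k0 M j| ≤ ε →
      (∑ i ∈ range M, (((M : ℂ) - i) * (Complex.exp (((π / (2 * M) : ℝ) : ℂ) * Complex.I)) ^ i) *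
        ((1 + C ((n : ℂ)⁻¹) * AA a M κ) ^ n).coeff i).re + C0 / n * M < 0 := by
  have hπ := Real.pi_pos
  have hs3 : 0 < Real.sin (a / 2) := Real.sin_pos_of_pos_of_lt_pi (by linarith) (by linarith)
  set c1 := (2 / π) * Real.sin (a / 2) with hc1
  have hc10 : 0 < c1 := by positivity
  set B : ℝ := 2 * π with hB
  have hB0 : 0 < B := by positivity
  -- choice of n
  obtain ⟨m, hm⟩ := exists_nat_gt ((4 * C0 + 4 * (B ^ 2 * Real.exp B)) / c1)
  have hm1 : (4 * C0 + 4 * (B ^ 2 * Real.exp B)) < c1 * m := by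
    rw [div_lt_iff₀ hc10] at hm
    linarith
  have hm0 : (0 : ℝ) < m := by
    have : 0 < c1 * m := lt_trans (by positivity) hm1
    exact (pos_iff_pos_of_mul_pos this).mp hc10
  have hmN : 0 < m := by exact_mod_cast hm0
  refine ⟨2 * m, even_two_mul m, by omega, ?_⟩
  have hn0 : (0 : ℝ) < ((2 * m : ℕ) : ℝ) := by exact_mod_cast (by omega : 0 < 2 * m)
  -- choice of ε
  set ε := min (1 / 4) (c1 / (4 * (2 * π) * Real.exp B)) with hε
  have hε0 : 0 < ε := lt_min (by norm_num) (by positivity)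
  refine ⟨ε, hε0, ?_⟩
  obtain ⟨M1, hM1⟩ := exists_nat_gt (π / a)
  refine ⟨M1 + 1, fun M hM κ hκ => ?_⟩
  obtain ⟨N, rfl⟩ : ∃ N, M = N + 1 := ⟨M - 1, by omega⟩
  have hM0 : (0 : ℝ) < ((N + 1 : ℕ) : ℝ) := by exact_mod_cast Nat.succ_pos N
  have hMa : π / (2 * ((N + 1 : ℕ) : ℝ)) ≤ a / 2 := by
    rw [div_le_div_iff₀ (by positivity) (by norm_num)]
    have h1 : π < a * M1 := by rwa [div_lt_iff₀ ha0, mul_comm] at hM1
    have h2 : (M1 : ℝ) ≤ ((N + 1 : ℕ) : ℝ) := by exact_mod_cast (by omega : M1 ≤ N + 1)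
    nlinarith
  set β : ℝ := π / (2 * ((N + 1 : ℕ) : ℝ)) with hβ
  -- the norms
  have hA0 : l1 (AA a (N + 1) (k0 (N + 1))) ≤ B := by
    refine (l1_AA_le _ _ _).trans ?_
    rw [abs_of_pos ha0]
    have := sum_k0_le (N + 1)
    nlinarith
  have hsub : l1 (AA a (N + 1) κ - AA a (N + 1) (k0 (N + 1))) ≤ 2 * π * ε :=
    (l1_AA_sub_le _ _ _ _).trans (mul_le_mul_of_nonneg_left hκ (by positivity))
  have hA : l1 (AA a (N + 1) κ) ≤ B := by
    refine (l1_AA_le _ _ _).trans ?_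
    rw [abs_of_pos ha0]
    have h1 : ∑ j ∈ Ico 1 (N + 1), |κ j| ≤ 1 / 2 + 1 / 4 := by
      calc ∑ j ∈ Ico 1 (N + 1), |κ j| ≤ ∑ j ∈ Ico 1 (N + 1), (|k0 (N + 1) j| + |κ j - k0 (N + 1) j|) := by
            apply Finset.sum_le_sum
            intro j _
            have := abs_add_le (k0 (N + 1) j) (κ j - k0 (N + 1) j)
            rwa [add_sub_cancel] at this
        _ = ∑ j ∈ Ico 1 (N + 1), |k0 (N + 1) j| + ∑ j ∈ Ico 1 (N + 1), |κ j - k0 (N + 1) j| := Finset.sum_add_distrib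
        _ ≤ 1 / 2 + 1 / 4 := add_le_add (sum_k0_le _) (hκ.trans (min_le_left _ _))
    nlinarith
  have hz : Complex.exp ((β : ℂ) * Complex.I) * Complex.exp (-((β : ℂ) * Complex.I)) = 1 := by
    rw [← Complex.exp_add, add_neg_cancel, Complex.exp_zero]
  have hcoef : ∀ j, j + 1 < N + 1 → ((j : ℂ) + 1) * (AA a (N + 1) (k0 (N + 1))).coeff (j + 1)
      = Complex.exp ((β : ℂ) * Complex.I) ^ (j + 1) - Complex.exp (-((β : ℂ) * Complex.I)) ^ (j + 1) := by
    intro j hj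
    rw [coeff_AA (by omega) hj, ← Complex.exp_nat_mul, ← Complex.exp_nat_mul]
    have e1 : Complex.exp (((j + 1 : ℕ) : ℂ) * ((β : ℂ) * Complex.I)) - Complex.exp (((j + 1 : ℕ) : ℂ) * -((β : ℂ) * Complex.I))
        = 2 * Complex.I * Complex.sin ((β * ((j + 1 : ℕ) : ℝ) : ℝ) : ℂ) := by
      rw [Complex.sin]
      have e2 : (((j + 1 : ℕ) : ℂ) * ((β : ℂ) * Complex.I)) = ((β * ((j + 1 : ℕ) : ℝ) : ℝ) : ℂ) * Complex.I := by push_cast; ring
      have e3 : (((j + 1 : ℕ) : ℂ) * -((β : ℂ) * Complex.I)) = -((β * ((j + 1 : ℕ) : ℝ) : ℝ) : ℂ) * Complex.I := by push_cast; ring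
      rw [e2, e3]
      linear_combination (Complex.exp (((β * ((j + 1 : ℕ) : ℝ) : ℝ) : ℂ) * Complex.I) - Complex.exp (-((β * ((j + 1 : ℕ) : ℝ) : ℝ) : ℂ) * Complex.I)) * Complex.I_mul_I
    rw [e1]
    unfold k0
    rw [← hβ]
    have hj1 : ((j : ℂ) + 1) ≠ 0 := by exact_mod_cast Nat.succ_ne_zero j
    have hπc : (π : ℂ) ≠ 0 := by exact_mod_cast Real.pi_ne_zero
    push_cast
    field_simp
  have key := functional_main (M := N) (n := 2 * m) hA hA0 (by omega) hz (Complex.norm_exp_ofReal_mul_I β)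
    (E := Complex.exp ((a : ℂ) * Complex.I)) (by rw [coeff_AA_zero]) hcoef
  have hmain := main_re ha1 (Nat.succ_pos N) hMa
  rw [← hβ] at hmain
  have hre := (Complex.abs_re_le_norm _).trans key
  rw [Complex.sub_re] at hre
  have h5 := (abs_le.mp hre).2
  have h6 : Real.exp B * l1 (AA a (N + 1) κ - AA a (N + 1) (k0 (N + 1))) ≤ c1 / 4 := by
    calc Real.exp B * l1 (AA a (N + 1) κ - AA a (N + 1) (k0 (N + 1))) ≤ Real.exp B * (2 * π * (c1 / (4 * (2 * π) * Real.exp B))) := by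
          apply mul_le_mul_of_nonneg_left _ (Real.exp_pos _).le
          exact hsub.trans (mul_le_mul_of_nonneg_left (min_le_right _ _) (by positivity))
      _ = c1 / 4 := by
          have := Real.exp_pos B
          field_simp
  have h7 : B ^ 2 * Real.exp B / (2 * ((2 * m : ℕ) : ℝ)) + C0 / ((2 * m : ℕ) : ℝ) < c1 / 2 := by
    have e : B ^ 2 * Real.exp B / (2 * ((2 * m : ℕ) : ℝ)) + C0 / ((2 * m : ℕ) : ℝ) = (B ^ 2 * Real.exp B + 2 * C0) / (4 * m) := by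
      push_cast
      field_simp
      ring
    rw [e, div_lt_iff₀ (by positivity)]
    nlinarith [mul_pos (pow_pos hB0 2) (Real.exp_pos B)]
  have e8 : (N : ℝ) + 1 = ((N + 1 : ℕ) : ℝ) := by push_cast; ring
  rw [e8] at h5
  set X := (∑ i ∈ range (N + 1), ((((N + 1 : ℕ) : ℂ) - i) * (Complex.exp ((β : ℂ) * Complex.I)) ^ i) *
        ((1 + C (((2 * m : ℕ) : ℂ)⁻¹) * AA a (N + 1) κ) ^ (2 * m)).coeff i).re with hX
  have h9 : X ≤ -c1 * ((N + 1 : ℕ) : ℝ) + ((N + 1 : ℕ) : ℝ) * (c1 / 4 + B ^ 2 * Real.exp B / (2 * ((2 * m : ℕ) : ℝ))) := by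
    have h10 : ((N + 1 : ℕ) : ℝ) * (Real.exp B * l1 (AA a (N + 1) κ - AA a (N + 1) (k0 (N + 1))) + B ^ 2 * Real.exp B / (2 * ((2 * m : ℕ) : ℝ)))
        ≤ ((N + 1 : ℕ) : ℝ) * (c1 / 4 + B ^ 2 * Real.exp B / (2 * ((2 * m : ℕ) : ℝ))) := by
      apply mul_le_mul_of_nonneg_left _ hM0.le
      linarith
    linarith
  have h11 : X + C0 / ((2 * m : ℕ) : ℝ) * ((N + 1 : ℕ) : ℝ) ≤ -(c1 / 4) * ((N + 1 : ℕ) : ℝ) := by
    have h12 : ((N + 1 : ℕ) : ℝ) * (B ^ 2 * Real.exp B / (2 * ((2 * m : ℕ) : ℝ)) + C0 / ((2 * m : ℕ) : ℝ)) ≤ ((N + 1 : ℕ) : ℝ) * (c1 / 2) :=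
      mul_le_mul_of_nonneg_left h7.le hM0.le
    linarith
  have h13 : -(c1 / 4) * ((N + 1 : ℕ) : ℝ) < 0 := by
    have : 0 < c1 / 4 * ((N + 1 : ℕ) : ℝ) := by positivity
    linarith
  linarith

end H87HF
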