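import Mathlib
import Pool.Agent.H87.GP.FLim
import Pool.Agent.H24.HF.Defs

/-!
# Cells and the values `κ_j`
-/

open MeasureTheory Set Filter Topology
open scoped Interval ContDiff Real
open Pool.Agent.H24.HF

namespace H87HF

open H87GP

/-- **Cells with `∑ |∫ G_j ψ - η ψ(jη)|` small**, `η = θ/M`. -/
theorem exists_cells {θ : ℝ} (hθ0 : 0 < θ) (hθ1 : θ < 1) {ψ : ℝ → ℝ} (hψ : Continuous ψ) {C : ℝ} (hC0 : 0 ≤ C)
    (hC : ∀ u, 0 ≤ u → u ≤ 1 → |ψ u| ≤ C) {ε : ℝ} (hε : 0 < ε) :
    ∃ M0 : ℕ, ∀ M ≥ M0, ∃ Gc : ℕ → ℝ → ℝ, Cells1 M θ Gc ∧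
      ∑ j ∈ Finset.Ico 1 M, |(∫ x in Ioi (0 : ℝ), Gc j x * ψ x) - θ / M * ψ (θ / M * j)| ≤ ε := by
  -- uniform continuity
  have huc : UniformContinuousOn ψ (Set.Icc 0 1) := isCompact_Icc.uniformContinuousOn_of_continuous hψ.continuousOn
  rw [Metric.uniformContinuousOn_iff] at huc
  obtain ⟨δ, hδ0, hδ⟩ := huc (ε / 4) (by positivity)
  set ε1 := ε / (4 * (C + 1)) with hε1
  have hε10 : 0 < ε1 := by positivity
  have htend : Tendsto (fun N : ℕ => 2 * C * (1 / (N : ℝ) + Real.log N / N)) atTop (𝓝 0) := by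
    have h1 : Tendsto (fun N : ℕ => 1 / (N : ℝ)) atTop (𝓝 0) := tendsto_const_div_atTop_nhds_zero_nat _
    have h2 : Tendsto (fun N : ℕ => Real.log N / (N : ℝ)) atTop (𝓝 0) :=
      Real.isLittleO_log_id_atTop.tendsto_div_nhds_zero.comp tendsto_natCast_atTop_atTop
    simpa using (h1.add h2).const_mul (2 * C)
  obtain ⟨N2, hN2⟩ := eventually_atTop.mp (htend.eventually (ge_mem_nhds (show (0 : ℝ) < ε / 4 by positivity)))
  obtain ⟨N3, hN3⟩ := exists_nat_gt (1 / δ)
  refine ⟨max 2 (max N2 N3), fun M hM => ?_⟩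
  have hM2 : 2 ≤ M := (le_max_left _ _).trans hM
  have hMN2 : N2 ≤ M := (le_max_left _ _).trans ((le_max_right _ _).trans hM)
  have hMN3 : N3 ≤ M := (le_max_right _ _).trans ((le_max_right _ _).trans hM)
  have hM0 : (0 : ℝ) < M := by exact_mod_cast (by omega : 0 < M)
  set η := θ / M with hη
  have hη0 : 0 < η := by positivity
  have hηM : M * η = θ := by rw [hη]; field_simp
  have hηδ : η < δ := by
    have h1 : 1 / δ < M := lt_of_lt_of_le hN3 (by exact_mod_cast hMN3)
    rw [div_lt_iff₀ hδ0] at h1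
    rw [hη, div_lt_iff₀ hM0]
    linarith
  -- the cells
  have hcell : ∀ j : ℕ, 1 ≤ j → ∃ G : ℝ → ℝ, ContDiff ℝ ∞ G ∧ (∀ u, 0 ≤ G u) ∧
      (∃ a' b', lft η j < a' ∧ a' < b' ∧ b' < j * η ∧ ∀ u, (u ≤ a' ∨ b' ≤ u) → G u = 0) ∧
      (∫ u in (lft η j)..(j * η), G u ^ 2 / u) = 1 / (j : ℝ) ∧ (∫ u in (lft η j)..(j * η), |G u - gg η j|) ≤ ε1 * η := by
    intro j hj
    have hj0 : (0 : ℝ) < j := by exact_mod_cast hj
    exact exists_cellfn (lft_pos hη0 hj) (lft_lt hη0 j) (by positivity) (by positivity)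
  choose! G hG1 hG2 hG3 hG4 hG5 using hcell
  have hout : ∀ j, 1 ≤ j → ∀ u, u ≤ lft η j ∨ j * η ≤ u → G j u = 0 := by
    intro j hj u hu
    obtain ⟨a', b', h1, h2, h3, h4⟩ := hG3 j hj
    apply h4
    rcases hu with h | h
    · exact Or.inl (h.trans h1.le)
    · exact Or.inr (h3.le.trans h)
  set Gc : ℕ → ℝ → ℝ := fun j => if 1 ≤ j ∧ j < M then G j else fun _ => 0 with hGc
  have hGcj : ∀ j, 1 ≤ j → j < M → Gc j = G j := fun j h1 h2 => by rw [hGc]; simp only; rw [if_pos ⟨h1, h2⟩]
  have hGcn : ∀ j, ¬ (1 ≤ j ∧ j < M) → Gc j = fun _ => 0 := fun j h => by rw [hGc]; simp only; rw [if_neg h]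
  have hlft1 : ∀ j, 1 ≤ j → η / Real.exp 1 ≤ lft η j := by
    intro j hj
    unfold lft
    split_ifs with h
    · exact le_rfl
    · have h2 : (2 : ℝ) ≤ j := by exact_mod_cast (by omega : 2 ≤ j)
      have h3 : η / Real.exp 1 ≤ η := by
        apply div_le_self hη0.le
        have := Real.add_one_le_exp (1 : ℝ); linarith
      nlinarith
  refine ⟨Gc, ⟨hM2, hθ0, hθ1, ?_, ?_, ⟨η / Real.exp 1, by positivity, ?_⟩, ?_, ?_, ?_⟩, ?_⟩
  · intro j
    by_cases h : 1 ≤ j ∧ j < M
    · rw [hGcj j h.1 h.2]; exact hG1 j h.1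
    · rw [hGcn j h]; exact contDiff_const
  · intro j x
    by_cases h : 1 ≤ j ∧ j < M
    · rw [hGcj j h.1 h.2]; exact hG2 j h.1 x
    · rw [hGcn j h]
  · intro j x hx
    by_cases h : 1 ≤ j ∧ j < M
    · rw [hGcj j h.1 h.2]
      exact hout j h.1 x (Or.inl (hx.trans (hlft1 j h.1)))
    · rw [hGcn j h]
  · intro j x hx
    by_cases h : 1 ≤ j ∧ j < M
    · rw [hGcj j h.1 h.2] at hx
      have e1 : θ * ((j : ℝ) - 1) / M = ((j : ℝ) - 1) * η := by rw [hη]; ring
      have e2 : θ * (j : ℝ) / M = j * η := by rw [hη]; ring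
      rw [e1, e2]
      constructor
      · by_contra hcon
        push Not at hcon
        exact hx (hout j h.1 x (Or.inl (hcon.trans (le_lft hη0 j))))
      · by_contra hcon
        push Not at hcon
        exact hx (hout j h.1 x (Or.inr hcon))
    · rw [hGcn j h] at hx
      exact absurd rfl hx
  · intro j hj x
    rw [hGcn j (by omega)]
  · intro j h1 h2
    rw [hGcj j h1 h2, ← hG4 j h1, intervalIntegral.integral_of_le (lft_lt hη0 j).le]
    apply setIntegral_eq_of_subset_of_forall_sdiff_eq_zero measurableSet_Ioi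
    · intro x hx
      exact lt_of_lt_of_le (lft_pos hη0 h1) hx.1.le
    · intro x hx
      rw [hout j h1 x, zero_pow (by norm_num), zero_div]
      have h3 := hx.2
      rw [mem_Ioc, not_and_or, not_lt, not_le] at h3
      rcases h3 with h | h
      · exact Or.inl h
      · exact Or.inr h.le
  · -- the estimate
    have hterm : ∀ j ∈ Finset.Ico 1 M, |(∫ x in Ioi (0 : ℝ), Gc j x * ψ x) - η * ψ (η * j)|
        ≤ C * (ε1 * η) + 2 * C * (η / j) + ε / 4 * η := by
      intro j hj
      obtain ⟨hj1, hjM⟩ := Finset.mem_Ico.mp hj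
      have hj0 : (0 : ℝ) < j := by exact_mod_cast hj1
      have hj1' : (1 : ℝ) ≤ j := by exact_mod_cast hj1
      have hjη : (j : ℝ) * η ≤ 1 := by
        have h1 : (j : ℝ) ≤ M := by exact_mod_cast hjM.le
        have h2 : (j : ℝ) * η ≤ M * η := mul_le_mul_of_nonneg_right h1 hη0.le
        linarith
      have e1 : ∫ x in Ioi (0 : ℝ), Gc j x * ψ x = ∫ x, G j x * ψ x := by
        rw [hGcj j hj1 hjM]
        apply setIntegral_eq_integral_of_forall_compl_eq_zero
        intro x hx
        rw [hout j hj1 x (Or.inl ((not_lt.mp hx).trans (lft_pos hη0 hj1).le)), zero_mul]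
      rw [e1]
      have h1 := cell_term hη0 hj1 hψ (K := fun _ => 1) continuous_const (M := C) (C := 1) (e := 0) (σ := 1)
        (fun u h0 h1 => hC u h0 (h1.trans hjη)) le_rfl (by simp) (fun u _ _ => by simp) (fun u _ _ => by simp)
        (hG1 j hj1).continuous (hG5 j hj1) (hout j hj1)
      simp only [one_mul, zero_mul, add_zero, mul_one] at h1
      have h2 : |(∫ u in (((j : ℝ) - 1) * η)..(j * η), ψ u) - η * ψ (η * j)| ≤ ε / 4 * η := by
        have e2 : η * ψ (η * j) = ∫ u in (((j : ℝ) - 1) * η)..(j * η), ψ (η * j) := by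
          rw [intervalIntegral.integral_const, smul_eq_mul]
          ring
        have hi : ∀ x y, IntervalIntegrable ψ volume x y := fun x y => hψ.intervalIntegrable _ _
        rw [e2, ← intervalIntegral.integral_sub (hi _ _) intervalIntegrable_const]
        have h3 := intervalIntegral.norm_integral_le_of_norm_le_const (a := ((j : ℝ) - 1) * η) (b := j * η)
          (f := fun u => ψ u - ψ (η * j)) (C := ε / 4) (by
            intro u hu
            rw [uIoc_of_le (by nlinarith)] at hu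
            have hu0 : 0 ≤ u := le_trans (mul_nonneg (by linarith) hη0.le) hu.1.le
            have h4 := hδ u ⟨hu0, hu.2.trans hjη⟩ (η * j) ⟨by positivity, by rw [mul_comm]; exact hjη⟩ (by
              rw [Real.dist_eq, abs_lt]
              constructor
              · have := hu.1; nlinarith
              · have := hu.2; nlinarith)
            rw [Real.dist_eq] at h4
            exact h4.le)
        rw [Real.norm_eq_abs] at h3
        refine h3.trans (le_of_eq ?_)
        rw [show (j : ℝ) * η - ((j : ℝ) - 1) * η = η by ring, abs_of_pos hη0]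
      calc |(∫ x, G j x * ψ x) - η * ψ (η * j)|
          = |((∫ x, G j x * ψ x) - ∫ u in (((j : ℝ) - 1) * η)..(j * η), ψ u)
            + ((∫ u in (((j : ℝ) - 1) * η)..(j * η), ψ u) - η * ψ (η * j))| := by ring_nf
        _ ≤ _ := (abs_add_le _ _).trans (add_le_add h1 h2)
    refine (Finset.sum_le_sum hterm).trans ?_
    have hsum : ∑ j ∈ Finset.Ico 1 M, (C * (ε1 * η) + 2 * C * (η / j) + ε / 4 * η)
        ≤ M * (C * (ε1 * η) + ε / 4 * η) + 2 * C * η * (1 + Real.log M) := by
      have e1 : ∑ j ∈ Finset.Ico 1 M, (C * (ε1 * η) + 2 * C * (η / j) + ε / 4 * η)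
          = ∑ j ∈ Finset.Ico 1 M, (C * (ε1 * η) + ε / 4 * η) + 2 * C * η * ∑ j ∈ Finset.Ico 1 M, (1 : ℝ) / j := by
        rw [Finset.mul_sum, ← Finset.sum_add_distrib]
        apply Finset.sum_congr rfl
        intro j _
        ring
      rw [e1]
      apply add_le_add
      · rw [Finset.sum_const, Nat.card_Ico, nsmul_eq_mul]
        apply mul_le_mul_of_nonneg_right _ (by positivity)
        exact_mod_cast Nat.sub_le M 1
      · apply mul_le_mul_of_nonneg_left _ (by positivity)
        have h2 := harmonic_le_one_add_log M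
        rw [harmonic_eq_sum_Icc] at h2
        push_cast at h2
        refine le_trans ?_ h2
        calc ∑ j ∈ Finset.Ico 1 M, (1 : ℝ) / j = ∑ j ∈ Finset.Ico 1 M, ((j : ℝ))⁻¹ := by
              apply Finset.sum_congr rfl; intro j _; rw [one_div]
          _ ≤ ∑ j ∈ Finset.Icc 1 M, ((j : ℝ))⁻¹ := by
              apply Finset.sum_le_sum_of_subset_of_nonneg
              · intro j hj
                rw [Finset.mem_Ico] at hj
                rw [Finset.mem_Icc]
                omega
              · intro j _ _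
                positivity
    refine hsum.trans ?_
    have h1 : (M : ℝ) * (C * (ε1 * η) + ε / 4 * η) = θ * (C * ε1) + θ * (ε / 4) := by
      rw [← hηM]; ring
    have h2 : 2 * C * η * (1 + Real.log M) = θ * (2 * C * (1 / (M : ℝ) + Real.log M / M)) := by
      rw [hη]; field_simp
    rw [h1, h2]
    have h3 : C * ε1 ≤ ε / 4 := by
      rw [hε1]
      calc C * (ε / (4 * (C + 1))) ≤ (C + 1) * (ε / (4 * (C + 1))) := by
            apply mul_le_mul_of_nonneg_right (by linarith) (by positivity)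
        _ = ε / 4 := by field_simp
    have h4 := hN2 M hMN2
    have h5 : 0 ≤ C * ε1 := by positivity
    have h6 : 0 ≤ 2 * C * (1 / (M : ℝ) + Real.log M / M) := by
      have : 0 ≤ Real.log M := Real.log_natCast_nonneg M
      positivity
    nlinarith

end H87HF
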