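import Mathlib
import Pool.Agent.H6.Local
import Pool.Agent.H87.HF.L3
import Pool.Agent.H87.HF.L4
import Pool.Agent.H67.HF.Defs2

/-!
# HalfGaps, block 4: the limit functional is negative
-/

open MeasureTheory Set Filter Topology
open scoped Interval ContDiff Real
open Pool.Agent.H6 Pool.Agent.H14.GP Pool.Agent.H24.HF Pool.Agent.H67.HF

namespace H87HF

/-! ### power series and polynomials -/

lemma coeff_pow_eq {f : PowerSeries ℂ} {P : Polynomial ℂ} {M : ℕ} (h : ∀ i < M, PowerSeries.coeff i f = P.coeff i) (n : ℕ) :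
    ∀ i < M, PowerSeries.coeff i (f ^ n) = (P ^ n).coeff i := by
  induction n with
  | zero =>
    intro i _
    rw [pow_zero, pow_zero, PowerSeries.coeff_one, Polynomial.coeff_one]
  | succ n ih =>
    intro i hi
    rw [pow_succ, pow_succ, PowerSeries.coeff_mul, Polynomial.coeff_mul]
    apply Finset.sum_congr rfl
    intro x hx
    have := Finset.HasAntidiagonal.mem_antidiagonal.mp hx
    rw [ih x.1 (by omega), h x.2 (by omega)]

lemma coeff_Vps {n M : ℕ} {δ : ℝ} {κ : PowerSeries ℝ} (h0 : PowerSeries.coeff 0 κ = 0) {i : ℕ} (hi : i < M) :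
    PowerSeries.coeff i (Vps n δ κ)
      = ((1 + Polynomial.C ((n : ℂ)⁻¹) * AA (π * (δ - 1 / 2)) M (fun j => PowerSeries.coeff j κ)) ^ n).coeff i := by
  unfold Vps
  apply coeff_pow_eq _ n i hi
  intro j hj
  rw [map_add, PowerSeries.coeff_C_mul, map_add, Polynomial.coeff_add, Polynomial.coeff_C_mul, PowerSeries.coeff_one, Polynomial.coeff_one]
  have e2 : (2 : PowerSeries ℂ) = PowerSeries.C (2 : ℂ) := (map_ofNat PowerSeries.C 2).symm
  rw [e2, PowerSeries.coeff_C_mul, PowerSeries.coeff_map]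
  rcases Nat.eq_zero_or_pos j with hj0 | hj0
  · subst hj0
    rw [coeff_AA_zero, h0]
    simp
    ring
  · have hj1 : ¬ j = 0 := by omega
    rw [coeff_AA hj0 hj, PowerSeries.coeff_C]
    simp only [if_neg hj1]
    simp
    ring

lemma sum_tri (F : ℕ → ℂ) (M : ℕ) :
    ∑ k ∈ Finset.range M, ∑ m ∈ Finset.range M, (if k ≤ m then F (m - k) else 0) = ∑ i ∈ Finset.range M, ((M : ℂ) - i) * F i := by
  rw [Finset.sum_comm]
  have e1 : ∀ m ∈ Finset.range M, ∑ k ∈ Finset.range M, (if k ≤ m then F (m - k) else 0) = ∑ i ∈ Finset.range (m + 1), F i := by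
    intro m hm
    rw [Finset.mem_range] at hm
    rw [← Finset.sum_range_reflect F (m + 1)]
    have e2 : ∑ k ∈ Finset.range M, (if k ≤ m then F (m - k) else 0) = ∑ k ∈ Finset.range (m + 1), (if k ≤ m then F (m - k) else 0) := by
      symm
      apply Finset.sum_subset (Finset.range_subset_range.mpr (by omega))
      intro k _ hk
      rw [Finset.mem_range] at hk
      rw [if_neg (by omega)]
    rw [e2]
    apply Finset.sum_congr rfl
    intro k hk
    rw [Finset.mem_range] at hk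
    rw [if_pos (by omega)]
    congr 1
  rw [Finset.sum_congr rfl e1]
  clear e1
  induction M with
  | zero => simp
  | succ M ih =>
    rw [Finset.sum_range_succ, ih, Finset.sum_range_succ _ M, Finset.sum_range_succ _ M, ← add_assoc, ← Finset.sum_add_distrib]
    congr 1
    · apply Finset.sum_congr rfl
      intro i _
      push_cast
      ring
    · push_cast
      ring

lemma Jn_eq {n M : ℕ} {δ β : ℝ} {κ : PowerSeries ℝ} (h0 : PowerSeries.coeff 0 κ = 0) :
    Jn n M δ β κ = ∑ i ∈ Finset.range M, (((M : ℂ) - i) * (Complex.exp (((β : ℝ) : ℂ) * Complex.I)) ^ i) *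
        ((1 + Polynomial.C ((n : ℂ)⁻¹) * AA (π * (δ - 1 / 2)) M (fun j => PowerSeries.coeff j κ)) ^ n).coeff i := by
  unfold Jn
  rw [sum_tri (fun i => Complex.exp (((β * (i : ℝ) : ℝ) : ℂ) * Complex.I) * PowerSeries.coeff i (Vps n δ κ)) M]
  apply Finset.sum_congr rfl
  intro i hi
  rw [coeff_Vps h0 (Finset.mem_range.mp hi), ← Complex.exp_nat_mul]
  have e : ((β * (i : ℝ) : ℝ) : ℂ) * Complex.I = (i : ℂ) * (((β : ℝ) : ℂ) * Complex.I) := by push_cast; ring
  rw [e]
  ring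

/-! ### the window -/

/-- Windows close to `1` on `[0, 1]`. -/
theorem exists_win {ε : ℝ} (hε : 0 < ε) : ∃ (χ : ℝ → ℝ) (D : ℝ), Win2 χ D ∧ ∀ u, 0 ≤ u → u ≤ 1 → |χ u - 1| ≤ ε := by
  obtain ⟨χ₀, n0, hpos0, h00⟩ := exists_posdef
  have nsq := n0.sq
  obtain ⟨s, hs0, hs⟩ := n0.supp
  have hφ := (n0.reg hs).test
  have hac : ∀ y, cosT (fun x => χ₀ x ^ 2) y = ∫ u, cosT χ₀ u * cosT χ₀ (u + y) := by
    intro y
    rw [hφ.conv_general n0.continuous n0.integrable y]
    congr 1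
    ext ξ
    rw [n0.inv, pow_two]
  have hac0 : ∀ y, 0 ≤ cosT (fun x => χ₀ x ^ 2) y := by
    intro y
    rw [hac]
    exact integral_nonneg fun u => mul_nonneg (hpos0 _) (hpos0 _)
  have hcont : ContinuousAt (fun x => χ₀ x ^ 2) 0 := nsq.continuous.continuousAt
  rw [Metric.continuousAt_iff] at hcont
  obtain ⟨τ, hτ0, hτ⟩ := hcont ε hε
  have hR : 0 < 2 / τ := by positivity
  refine ⟨fun u => χ₀ (u / (2 / τ)) ^ 2, max 1 (s * (2 / τ)), ⟨le_max_left _ _, ?_, ?_, ?_, ?_, ?_, ?_, ?_⟩, ?_⟩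
  · exact (nsq.comp_div hR).smooth
  · intro u
    rw [neg_div, n0.even]
  · intro u hu
    rw [hs, zero_pow (by norm_num)]
    rw [abs_div, abs_of_pos hR, le_div_iff₀ hR]
    exact (le_max_right _ _).trans hu
  · simp [h00]
  · intro u; positivity
  · intro u
    have h1 := n0.abs_le_of_pos hpos0 (u / (2 / τ))
    rw [h00] at h1
    have h2 := abs_le.mp h1
    nlinarith [h2.1, h2.2]
  · intro x
    have := cosT_dilate (fun x => χ₀ x ^ 2) hR x
    rw [this]
    exact mul_nonneg hR.le (hac0 _)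
  · intro u h0 h1
    have h2 := @hτ (u / (2 / τ)) (by
      rw [Real.dist_eq, sub_zero, abs_of_nonneg (by positivity), div_lt_iff₀ hR]
      have : τ * (2 / τ) = 2 := by field_simp
      linarith)
    rw [Real.dist_eq, h00, one_pow] at h2
    exact h2.le

lemma hd_bound {χ : ℝ → ℝ} {D δ : ℝ} (hW : Win2 χ D) (h0 : 0 ≤ δ) (h1 : δ ≤ 1) (u : ℝ) : |hd χ δ u| ≤ 1 := by
  unfold hd
  rw [abs_mul, abs_mul, abs_of_nonneg (hW.nonneg u), abs_of_nonneg h0]
  have h2 : |Real.sinc (π * δ * u)| ≤ 1 := by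
    rw [abs_le]
    exact ⟨Real.neg_one_le_sinc _, Real.sinc_le_one _⟩
  have h3 : δ * |Real.sinc (π * δ * u)| ≤ 1 := mul_le_one₀ h1 (abs_nonneg _) h2
  exact mul_le_one₀ (hW.le_one u) (by positivity) h3

/-- **Block 4.** -/
theorem functional_half {δ : ℝ} (h1 : 1 / 2 < δ) (h2 : δ < 1) (C0 : ℝ) (hC : 0 < C0) :
    ∃ (χ : ℝ → ℝ) (D : ℝ) (M : ℕ) (θ : ℝ) (Gc : ℕ → ℝ → ℝ) (n : ℕ), Win2 χ D ∧ Cells1 M θ Gc ∧ Even n ∧ 0 < n ∧
      (Jn n M δ (π * δ * θ / M) (kaps (Gd χ δ) Gc)).re + C0 / n * M < 0 := by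
  have hπ := Real.pi_pos
  have hδ0 : 0 < δ := by linarith
  obtain ⟨n, hn1, hn2, ε, hε, M0, hM0⟩ := functional_neg (a := π * (δ - 1 / 2)) (by positivity) (by nlinarith) C0 hC
  obtain ⟨χ, D, hW, hχ⟩ := exists_win (ε := ε / 2) (by positivity)
  set θ : ℝ := 1 / (2 * δ) with hθ
  have hθ0 : 0 < θ := by positivity
  have hθ1 : θ < 1 := by rw [hθ, div_lt_one (by positivity)]; linarith
  have hcont : Continuous (hd χ δ) := by
    unfold hd
    exact hW.smooth.continuous.mul (continuous_const.mul (Real.continuous_sinc.comp (by fun_prop)))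
  obtain ⟨M1, hM1⟩ := exists_cells hθ0 hθ1 hcont zero_le_one (fun u _ _ => hd_bound hW hδ0.le h2.le u) (ε := ε / 2) (by positivity)
  set M := max 1 (max M0 M1) with hM
  have hMM0 : M0 ≤ M := (le_max_left _ _).trans (le_max_right _ _)
  have hMM1 : M1 ≤ M := (le_max_right _ _).trans (le_max_right _ _)
  have hM1' : 1 ≤ M := le_max_left _ _
  have hMpos : (0 : ℝ) < M := by exact_mod_cast hM1'
  obtain ⟨Gc, hG, hGsum⟩ := hM1 M hMM1
  refine ⟨χ, D, M, θ, Gc, n, hW, hG, hn1, hn2, ?_⟩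
  have hβ : π * δ * θ / M = π / (2 * M) := by rw [hθ]; field_simp
  have hkp : ∀ j, kp Gc (Gd χ δ) j = ∫ x in Ioi (0 : ℝ), Gc j x * hd χ δ x := by
    intro j
    unfold kp
    apply setIntegral_congr_fun measurableSet_Ioi
    intro x hx
    have hx0 : x ≠ 0 := (mem_Ioi.mp hx).ne'
    simp only
    unfold Gd
    field_simp
  have h0 : PowerSeries.coeff 0 (kaps (Gd χ δ) Gc) = 0 := by
    unfold kaps
    rw [PowerSeries.coeff_mk, hkp]
    have : ∀ x, Gc 0 x = 0 := hG.out 0 (Or.inl one_pos)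
    simp [this]
  rw [hβ, Jn_eq h0]
  apply hM0 M hMM0
  -- the closeness of the coefficients
  have hterm : ∀ j ∈ Finset.Ico 1 M, |PowerSeries.coeff j (kaps (Gd χ δ) Gc) - k0 M j|
      ≤ |(∫ x in Ioi (0 : ℝ), Gc j x * hd χ δ x) - θ / M * hd χ δ (θ / M * j)| + ε / 2 * (1 / M) := by
    intro j hj
    obtain ⟨hj1, hjM⟩ := Finset.mem_Ico.mp hj
    have hj0 : (0 : ℝ) < j := by exact_mod_cast hj1
    unfold kaps
    rw [PowerSeries.coeff_mk, hkp]
    have hx0 : 0 < θ / M * j := by positivity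
    have hx1 : θ / M * j ≤ 1 := by
      have h3 : (j : ℝ) ≤ M := by exact_mod_cast hjM.le
      calc θ / M * j ≤ θ / M * M := mul_le_mul_of_nonneg_left h3 (by positivity)
        _ = θ := by field_simp
        _ ≤ 1 := hθ1.le
    have e1 : k0 M j = θ / M * (δ * Real.sinc (π * δ * (θ / M * j))) := by
      unfold k0
      have e2 : π * δ * (θ / M * j) = π / (2 * M) * j := by rw [hθ]; field_simp
      rw [e2, Real.sinc_of_ne_zero (by positivity), hθ]
      field_simp
    have e3 : |θ / M * hd χ δ (θ / M * j) - k0 M j| ≤ ε / 2 * (1 / M) := by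
      rw [e1]
      unfold hd
      have e4 : θ / M * (χ (θ / M * j) * (δ * Real.sinc (π * δ * (θ / M * j)))) - θ / M * (δ * Real.sinc (π * δ * (θ / M * j)))
          = (χ (θ / M * j) - 1) * (θ / M * (δ * Real.sinc (π * δ * (θ / M * j)))) := by ring
      rw [e4, abs_mul]
      apply mul_le_mul (hχ _ hx0.le hx1) _ (abs_nonneg _) (by positivity)
      rw [abs_mul, abs_mul, abs_of_pos (show 0 < θ / (M : ℝ) by positivity), abs_of_pos hδ0]
      have h4 : |Real.sinc (π * δ * (θ / M * j))| ≤ 1 := by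
        rw [abs_le]; exact ⟨Real.neg_one_le_sinc _, Real.sinc_le_one _⟩
      have h5 : δ * |Real.sinc (π * δ * (θ / M * j))| ≤ 1 := mul_le_one₀ h2.le (abs_nonneg _) h4
      have h6 : θ / M ≤ 1 / (M : ℝ) := div_le_div_of_nonneg_right hθ1.le hMpos.le
      calc θ / M * (δ * |Real.sinc (π * δ * (θ / M * j))|) ≤ 1 / M * 1 := mul_le_mul h6 h5 (by positivity) (by positivity)
        _ = 1 / M := mul_one _
    calc |(∫ x in Ioi (0 : ℝ), Gc j x * hd χ δ x) - k0 M j|
        = |((∫ x in Ioi (0 : ℝ), Gc j x * hd χ δ x) - θ / M * hd χ δ (θ / M * j)) + (θ / M * hd χ δ (θ / M * j) - k0 M j)| := by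
          ring_nf
      _ ≤ _ := (abs_add_le _ _).trans (add_le_add le_rfl e3)
  refine (Finset.sum_le_sum hterm).trans ?_
  rw [Finset.sum_add_distrib, Finset.sum_const, Nat.card_Ico, nsmul_eq_mul]
  have h7 : ((M - 1 : ℕ) : ℝ) * (ε / 2 * (1 / M)) ≤ ε / 2 := by
    calc ((M - 1 : ℕ) : ℝ) * (ε / 2 * (1 / M)) ≤ M * (ε / 2 * (1 / M)) := by
          apply mul_le_mul_of_nonneg_right _ (by positivity)
          exact_mod_cast Nat.sub_le M 1
      _ = ε / 2 := by field_simp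
  linarith

end H87HF
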